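import Pool.Agent.R123.Hertz.Count

/-!
Wilf equivalence of Hertzsprung patterns is equality of the overlap sets.
-/

namespace R123.Hertz

open Finset

/-- `σ` has no descending self-overlap -/
def NoMinus {k : ℕ} (σ : Equiv.Perm (Fin k)) : Prop := ∀ g, 1 ≤ g → g < k → ¬ Minus σ g

theorem N_eq_of_good_iff {k : ℕ} {σ τ : Equiv.Perm (Fin k)} (hσ : NoMinus σ) (hτ : NoMinus τ)
    (n : ℕ) (M : Finset ℕ) (hn : ∀ a ∈ M, a + k ≤ n) (h : Good σ M ↔ Good τ M) :
    N σ n M = N τ n M := by
  by_cases hg : Good σ M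
  · rw [N_good σ n M hg hn, N_good τ n M (h.mp hg) hn]
  · rw [N_bad σ n M hσ hg, N_bad τ n M hτ (fun h2 => hg (h.mpr h2))]

theorem wilf_of_plus {k : ℕ} {σ τ : Equiv.Perm (Fin k)} (hσ : NoMinus σ) (hτ : NoMinus τ)
    (h : ∀ g, 1 ≤ g → g < k → (Plus σ g ↔ Plus τ g)) (n : ℕ) :
    avoidCount σ n = avoidCount τ n := by
  have h1 : (avoidCount σ n : ℤ) = avoidCount τ n := by
    rw [incl_excl, incl_excl]
    apply sum_congr rfl
    intro M hM
    rw [mem_powerset] at hM
    rw [N_eq_of_good_iff hσ hτ n M]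
    · intro a ha
      have := mem_range.mp (hM ha)
      omega
    · constructor
      · intro hg a ha b hb hab hbk
        exact (h _ (by omega) (by omega)).mp (hg a ha b hb hab hbk)
      · intro hg a ha b hb hab hbk
        exact (h _ (by omega) (by omega)).mpr (hg a ha b hb hab hbk)
  exact_mod_cast h1

theorem plus_comp {k : ℕ} {σ : Equiv.Perm (Fin k)} {c g : ℕ} (hc : c ≤ g) (h1 : Plus σ c)
    (h2 : Plus σ (g - c)) : Plus σ g := by
  intro j hj
  have e1 := h1 (j + (g - c)) (by omega)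
  have e2 := h2 j (by omega)
  have e3 : (⟨j + (g - c) + c, by omega⟩ : Fin k) = ⟨j + g, hj⟩ := by
    apply Fin.ext
    simp only
    omega
  rw [e3] at e1
  rw [e1, e2, Nat.cast_sub hc]
  ring

theorem aux_diff {k : ℕ} {σ τ : Equiv.Perm (Fin k)} (hσ : NoMinus σ) (hτ : NoMinus τ)
    (H : ∀ n, avoidCount σ n = avoidCount τ n) (g : ℕ) (hg1 : 1 ≤ g) (hgk : g < k)
    (ih : ∀ c, 1 ≤ c → c < g → (Plus σ c ↔ Plus τ c)) (h1 : Plus σ g) : Plus τ g := by
  by_contra h2
  have h3 : (avoidCount σ (k + g) : ℤ) = avoidCount τ (k + g) := by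
    rw [H]
  rw [incl_excl, incl_excl] at h3
  have hr : k + g + 1 - k = g + 1 := by omega
  rw [hr] at h3
  have hmem : ({0, g} : Finset ℕ) ∈ (range (g + 1)).powerset := by
    rw [mem_powerset]
    intro x hx
    rw [mem_insert, mem_singleton] at hx
    rw [mem_range]
    omega
  have hrest : ∀ M ∈ (range (g + 1)).powerset.erase {0, g},
      (-1 : ℤ) ^ #M * (N σ (k + g) M : ℤ) = (-1 : ℤ) ^ #M * (N τ (k + g) M : ℤ) := by
    intro M hM
    rw [mem_erase, mem_powerset] at hM
    obtain ⟨hM1, hM2⟩ := hM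
    have hb : ∀ a ∈ M, a ≤ g := by
      intro a ha
      have := mem_range.mp (hM2 ha)
      omega
    rw [N_eq_of_good_iff hσ hτ (k + g) M (fun a ha => by have := hb a ha; omega)]
    by_cases hcase : 0 ∈ M ∧ g ∈ M
    · obtain ⟨h0, hgM⟩ := hcase
      obtain ⟨c, hc, hc0, hcg⟩ : ∃ c ∈ M, c ≠ 0 ∧ c ≠ g := by
        by_contra hcon
        push Not at hcon
        apply hM1
        ext x
        rw [mem_insert, mem_singleton]
        constructor
        · intro hx
          by_cases hx0 : x = 0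
          · exact Or.inl hx0
          · exact Or.inr (hcon x hx hx0)
        · rintro (rfl | rfl)
          · exact h0
          · exact hgM
      have hcg' := hb c hc
      constructor
      · intro hg
        exfalso
        apply h2
        have e1 := hg 0 h0 c hc (by omega) (by omega)
        have e2 := hg c hc g hgM (by omega) (by omega)
        rw [Nat.sub_zero] at e1
        exact plus_comp (by omega) ((ih c (by omega) (by omega)).mp e1)
          ((ih (g - c) (by omega) (by omega)).mp e2)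
      · intro hg
        exfalso
        apply h2
        have := hg 0 h0 g hgM (by omega) (by omega)
        rwa [Nat.sub_zero] at this
    · have hlt : ∀ a ∈ M, ∀ b ∈ M, a < b → b - a < g := by
        intro a ha b hb' hab
        have h5 := hb b hb'
        by_contra hcon
        push Not at hcon
        apply hcase
        have ha0 : a = 0 := by omega
        have hbg : b = g := by omega
        subst ha0
        subst hbg
        exact ⟨ha, hb'⟩
      constructor
      · intro hg a ha b hb' hab hbk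
        exact (ih _ (by omega) (hlt a ha b hb' hab)).mp (hg a ha b hb' hab hbk)
      · intro hg a ha b hb' hab hbk
        exact (ih _ (by omega) (hlt a ha b hb' hab)).mpr (hg a ha b hb' hab hbk)
  rw [← add_sum_erase _ _ hmem, ← add_sum_erase _ (fun M => (-1 : ℤ) ^ #M * (N τ (k + g) M : ℤ))
    hmem, sum_congr rfl hrest] at h3
  have h4 : (-1 : ℤ) ^ #({0, g} : Finset ℕ) * (N σ (k + g) {0, g} : ℤ) =
    (-1 : ℤ) ^ #({0, g} : Finset ℕ) * (N τ (k + g) {0, g} : ℤ) := by linarith
  have h5 : N τ (k + g) {0, g} = 0 := by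
    apply N_bad τ _ _ hτ
    intro hg
    apply h2
    have := hg 0 (by simp) g (by simp) (by omega) (by omega)
    rwa [Nat.sub_zero] at this
  have h6 : N σ (k + g) {0, g} = N (1 : Equiv.Perm (Fin k)) (k + g) {0, g} := by
    apply N_good
    · intro a ha b hb hab _
      rw [mem_insert, mem_singleton] at ha hb
      have ha0 : a = 0 := by omega
      have hbg : b = g := by omega
      rw [ha0, hbg, Nat.sub_zero]
      exact h1
    · intro a ha
      rw [mem_insert, mem_singleton] at ha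
      omega
  have h7 : 0 < N (1 : Equiv.Perm (Fin k)) (k + g) {0, g} := by
    classical
    unfold N
    rw [card_pos]
    refine ⟨1, ?_⟩
    rw [mem_filter]
    refine ⟨mem_univ _, ?_⟩
    intro a ha
    rw [mem_insert, mem_singleton] at ha
    refine ⟨by omega, a, ?_⟩
    intro j
    simp
    ring
  rw [h5, h6] at h4
  have h8 : (-1 : ℤ) ^ #({0, g} : Finset ℕ) ≠ 0 := pow_ne_zero _ (by norm_num)
  have h9 := mul_left_cancel₀ h8 h4
  omega

theorem plus_of_wilf {k : ℕ} {σ τ : Equiv.Perm (Fin k)} (hσ : NoMinus σ) (hτ : NoMinus τ)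
    (H : ∀ n, avoidCount σ n = avoidCount τ n) :
    ∀ g, 1 ≤ g → g < k → (Plus σ g ↔ Plus τ g) := by
  intro g
  induction g using Nat.strong_induction_on with
  | _ g ih =>
    intro hg1 hgk
    constructor
    · exact aux_diff hσ hτ H g hg1 hgk (fun c hc1 hc2 => ih c hc2 hc1 (by omega))
    · exact aux_diff hτ hσ (fun n => (H n).symm) g hg1 hgk
        (fun c hc1 hc2 => (ih c hc2 hc1 (by omega)).symm)

/-- reversal of a pattern -/
def rv {k : ℕ} (σ : Equiv.Perm (Fin k)) : Equiv.Perm (Fin k) := σ * Fin.revPerm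

theorem rv_rv {k : ℕ} (σ : Equiv.Perm (Fin k)) : rv (rv σ) = σ := by
  unfold rv
  ext x
  simp

theorem rv_apply {k : ℕ} (σ : Equiv.Perm (Fin k)) (j : ℕ) (hj : j < k) :
    rv σ ⟨j, hj⟩ = σ ⟨k - 1 - j, by omega⟩ := by
  unfold rv
  rw [Equiv.Perm.mul_apply, Fin.revPerm_apply]
  congr 1
  apply Fin.ext
  rw [Fin.val_rev]
  simp only
  omega

theorem occ_rv {k n : ℕ} (σ : Equiv.Perm (Fin k)) (π : Equiv.Perm (Fin n)) (i : ℕ)
    (h : OccursAt σ π i) : OccursAt (rv σ) (rv π) (n - k - i) := by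
  obtain ⟨h1, d, H⟩ := h
  refine ⟨by omega, d, fun j => ?_⟩
  have hj := j.isLt
  have e1 := H ⟨k - 1 - j, by omega⟩
  rw [rv_apply]
  have e2 : rv σ j = σ ⟨k - 1 - j, by omega⟩ := rv_apply σ j hj
  rw [e2]
  rw [← e1]
  congr 3
  apply Fin.ext
  simp only
  omega

theorem avoids_rv {k n : ℕ} (σ : Equiv.Perm (Fin k)) (π : Equiv.Perm (Fin n))
    (h : ∀ i, ¬ OccursAt σ π i) : ∀ i, ¬ OccursAt (rv σ) (rv π) i := by
  intro i hi
  have := occ_rv _ _ _ hi
  rw [rv_rv, rv_rv] at this
  exact h _ this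

theorem avoidCount_rv {k : ℕ} (σ : Equiv.Perm (Fin k)) (n : ℕ) :
    avoidCount (rv σ) n = avoidCount σ n := by
  unfold avoidCount
  apply Nat.card_congr
  refine ⟨fun π => ⟨rv π.1, ?_⟩, fun π => ⟨rv π.1, avoids_rv σ π.1 π.2⟩, ?_, ?_⟩
  · have := avoids_rv (rv σ) π.1 π.2
    rwa [rv_rv] at this
  · intro π
    apply Subtype.ext
    exact rv_rv _
  · intro π
    apply Subtype.ext
    exact rv_rv _

theorem minus_rv {k : ℕ} (σ : Equiv.Perm (Fin k)) (g : ℕ) (h : Plus σ g) : Minus (rv σ) g := by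
  intro j hj
  rw [rv_apply, rv_apply]
  have := h (k - 1 - (j + g)) (by omega)
  have e : (⟨k - 1 - (j + g) + g, by omega⟩ : Fin k) = ⟨k - 1 - j, by omega⟩ := by
    apply Fin.ext
    simp only
    omega
  rw [e] at this
  rw [this]
  ring

theorem plus_rv {k : ℕ} (σ : Equiv.Perm (Fin k)) (g : ℕ) (h : Minus σ g) : Plus (rv σ) g := by
  intro j hj
  rw [rv_apply, rv_apply]
  have := h (k - 1 - (j + g)) (by omega)
  have e : (⟨k - 1 - (j + g) + g, by omega⟩ : Fin k) = ⟨k - 1 - j, by omega⟩ := by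
    apply Fin.ext
    simp only
    omega
  rw [e] at this
  rw [this]
  ring

theorem excl {k : ℕ} (σ : Equiv.Perm (Fin k)) (g g' : ℕ) (hg : 1 ≤ g) (hgk : g < k)
    (hg' : 1 ≤ g') (hgk' : g' < k) (h : Plus σ g) (h' : Minus σ g') : False := by
  rcases Nat.lt_or_ge g g' with hlt | hge
  · -- values g', ..., k-1 fill the first k - g' positions
    obtain ⟨j, hj, hjv⟩ : ∃ j, ∃ hj : j < k - g', ((σ ⟨j, by omega⟩ : ℕ)) = k - 1 := by
      have hsurj := Finset.surjOn_of_injOn_of_card_le
        (s := (univ : Finset (Fin (k - g')))) (t := Finset.Ico g' k)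
        (fun j : Fin (k - g') => ((σ ⟨j, by have := j.isLt; omega⟩ : Fin k) : ℕ))
        (by
          intro j _
          have h1 := h' j (by have := j.isLt; omega)
          have h2 := (σ ⟨(j : ℕ) + g', by have := j.isLt; omega⟩).isLt
          have h3 := (σ ⟨(j : ℕ), by have := j.isLt; omega⟩).isLt
          simp only [coe_Ico, Set.mem_Ico]
          omega)
        (by
          intro x _ y _ hxy
          simp only at hxy
          have := σ.injective (Fin.ext hxy)
          apply Fin.ext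
          simpa using this)
        (by simp)
      obtain ⟨j, _, hj⟩ := hsurj (show k - 1 ∈ ((Finset.Ico g' k : Finset ℕ) : Set ℕ) by
        simp only [coe_Ico, Set.mem_Ico]; omega)
      exact ⟨j, j.isLt, hj⟩
    have h1 := h j (by omega)
    have h2 := (σ ⟨j + g, by omega⟩).isLt
    rw [hjv] at h1
    omega
  · obtain ⟨j, hj, hjv⟩ : ∃ j, ∃ hj : j < k - g, ((σ ⟨j, by omega⟩ : ℕ)) = 0 := by
      have hsurj := Finset.surjOn_of_injOn_of_card_le
        (s := (univ : Finset (Fin (k - g)))) (t := Finset.range (k - g))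
        (fun j : Fin (k - g) => ((σ ⟨j, by have := j.isLt; omega⟩ : Fin k) : ℕ))
        (by
          intro j _
          have h1 := h j (by have := j.isLt; omega)
          have h2 := (σ ⟨(j : ℕ) + g, by have := j.isLt; omega⟩).isLt
          simp only [coe_range, Set.mem_Iio]
          omega)
        (by
          intro x _ y _ hxy
          simp only at hxy
          have := σ.injective (Fin.ext hxy)
          apply Fin.ext
          simpa using this)
        (by simp)
      obtain ⟨j, _, hj⟩ := hsurj (show 0 ∈ ((Finset.range (k - g) : Finset ℕ) : Set ℕ) by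
        simp only [coe_range, Set.mem_Iio]; omega)
      exact ⟨j, j.isLt, hj⟩
    have h1 := h' j (by omega)
    rw [hjv] at h1
    omega

/-- the set of overlap shifts -/
def Ov {k : ℕ} (σ : Equiv.Perm (Fin k)) : Set ℕ :=
  {g | 1 ≤ g ∧ g < k ∧ (Plus σ g ∨ Minus σ g)}

theorem Ov_rv {k : ℕ} (σ : Equiv.Perm (Fin k)) : Ov (rv σ) = Ov σ := by
  ext g
  constructor
  · rintro ⟨h1, h2, h3⟩
    refine ⟨h1, h2, ?_⟩
    rcases h3 with h | h
    · right
      have := minus_rv _ g h
      rwa [rv_rv] at this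
    · left
      have := plus_rv _ g h
      rwa [rv_rv] at this
  · rintro ⟨h1, h2, h3⟩
    refine ⟨h1, h2, ?_⟩
    rcases h3 with h | h
    · right
      exact minus_rv _ g h
    · left
      exact plus_rv _ g h

/-- every pattern is equivalent to one without descending overlaps -/
theorem exists_noMinus {k : ℕ} (σ : Equiv.Perm (Fin k)) : ∃ σ' : Equiv.Perm (Fin k),
    NoMinus σ' ∧ Ov σ' = Ov σ ∧ ∀ n, avoidCount σ' n = avoidCount σ n := by
  by_cases h : NoMinus σ
  · exact ⟨σ, h, rfl, fun _ => rfl⟩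
  · unfold NoMinus at h
    push Not at h
    obtain ⟨g, hg1, hgk, hg⟩ := h
    refine ⟨rv σ, ?_, Ov_rv σ, fun n => avoidCount_rv σ n⟩
    intro g' h1 h2 h3
    have h4 := plus_rv _ g' h3
    rw [rv_rv] at h4
    exact excl σ g' g h1 h2 hg1 hgk h4 hg

theorem Ov_noMinus {k : ℕ} {σ : Equiv.Perm (Fin k)} (h : NoMinus σ) :
    Ov σ = {g | 1 ≤ g ∧ g < k ∧ Plus σ g} := by
  ext g
  constructor
  · rintro ⟨h1, h2, h3 | h3⟩
    · exact ⟨h1, h2, h3⟩
    · exact absurd h3 (h g h1 h2)
  · rintro ⟨h1, h2, h3⟩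
    exact ⟨h1, h2, Or.inl h3⟩

theorem wilf_iff {k : ℕ} (σ τ : Equiv.Perm (Fin k)) :
    (∀ n, avoidCount σ n = avoidCount τ n) ↔ Ov σ = Ov τ := by
  obtain ⟨σ', h1, h2, h3⟩ := exists_noMinus σ
  obtain ⟨τ', t1, t2, t3⟩ := exists_noMinus τ
  rw [← h2, ← t2]
  have e : (∀ n, avoidCount σ n = avoidCount τ n) ↔ ∀ n, avoidCount σ' n = avoidCount τ' n := by
    constructor
    · intro h n
      rw [h3, t3, h]
    · intro h n
      rw [← h3, ← t3, h]
  rw [e, Ov_noMinus h1, Ov_noMinus t1]
  constructor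
  · intro H
    have := plus_of_wilf h1 t1 H
    ext g
    constructor
    · rintro ⟨a, b, c⟩
      exact ⟨a, b, (this g a b).mp c⟩
    · rintro ⟨a, b, c⟩
      exact ⟨a, b, (this g a b).mpr c⟩
  · intro H
    apply wilf_of_plus h1 t1
    intro g a b
    constructor
    · intro c
      have : g ∈ {g | 1 ≤ g ∧ g < k ∧ Plus τ' g} := by
        rw [← H]
        exact ⟨a, b, c⟩
      exact this.2.2
    · intro c
      have : g ∈ {g | 1 ≤ g ∧ g < k ∧ Plus σ' g} := by
        rw [H]
        exact ⟨a, b, c⟩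
      exact this.2.2

end R123.Hertz
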