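import Pool.Agent.R123.Hertz.Words
import Pool.Agent.R123.Hertz.Wilf

/-!
Overlaps of permutations correspond to periods of words of length `k+1` with equal end letters.
-/

namespace R123.Hertz

open Finset

/-- displacement -/
def disp {k : ℕ} (σ : Equiv.Perm (Fin k)) (x : ℕ) : ℤ :=
  if h : x < k then ((σ ⟨x, h⟩ : ℕ) : ℤ) - x else 0

/-- prefix sums of the displacement -/
def D {k : ℕ} (σ : Equiv.Perm (Fin k)) (j : ℕ) : ℤ := ∑ x ∈ range j, disp σ x

theorem D_zero {k : ℕ} (σ : Equiv.Perm (Fin k)) : D σ 0 = 0 := by simp [D]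

theorem D_succ {k : ℕ} (σ : Equiv.Perm (Fin k)) (j : ℕ) : D σ (j + 1) = D σ j + disp σ j := by
  unfold D
  rw [sum_range_succ]

theorem D_full {k : ℕ} (σ : Equiv.Perm (Fin k)) : D σ k = 0 := by
  unfold D
  rw [sum_range]
  have h1 : ∀ i : Fin k, disp σ i = ((σ i : ℕ) : ℤ) - (i : ℕ) := by
    intro i
    unfold disp
    rw [dif_pos i.isLt]
  rw [sum_congr rfl fun i _ => h1 i, sum_sub_distrib,
    Equiv.sum_comp σ (fun i : Fin k => ((i : ℕ) : ℤ))]
  ring

theorem D_plus_zero {k : ℕ} (σ : Equiv.Perm (Fin k)) (g : ℕ) (hg : g < k) (h : Plus σ g) :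
    D σ g = 0 := by
  -- the last k-g positions carry the values g, ..., k-1
  obtain ⟨S, hS⟩ : ∃ S : Finset (Fin k), S = univ.filter (fun x : Fin k => g ≤ (x : ℕ)) := ⟨_, rfl⟩
  have hmem : ∀ x, x ∈ S ↔ g ≤ (x : ℕ) := by
    intro x
    rw [hS]
    simp
  have hsub : S.map σ.toEmbedding ⊆ S := by
    intro y hy
    rw [mem_map] at hy
    obtain ⟨x, hx, rfl⟩ := hy
    rw [hmem] at hx ⊢
    have h1 := h (x - g) (by have := x.isLt; omega)
    have h2 : (⟨(x : ℕ) - g + g, by have := x.isLt; omega⟩ : Fin k) = x := by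
      apply Fin.ext
      simp only
      omega
    rw [h2] at h1
    have h3 : ((σ.toEmbedding x : Fin k) : ℕ) = (σ x : ℕ) := rfl
    rw [h3]
    omega
  have heq : S.map σ.toEmbedding = S := eq_of_subset_of_card_le hsub (by rw [card_map])
  have hsum : ∑ x ∈ S, ((σ x : ℕ) : ℤ) = ∑ x ∈ S, ((x : ℕ) : ℤ) := by
    conv_rhs => rw [← heq, sum_map]
    rfl
  have h4 : D σ k = D σ g + ∑ x ∈ Finset.Ico g k, disp σ x := by
    unfold D
    rw [sum_range_add_sum_Ico _ hg.le]
  have h5 : ∑ x ∈ Finset.Ico g k, disp σ x = ∑ x ∈ S, (((σ x : ℕ) : ℤ) - (x : ℕ)) := by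
    have h6 : S.map Fin.valEmbedding = Finset.Ico g k := by
      ext x
      simp only [mem_map, Finset.mem_Ico, Fin.valEmbedding_apply]
      constructor
      · rintro ⟨y, hy, rfl⟩
        exact ⟨(hmem y).mp hy, y.isLt⟩
      · rintro ⟨h1, h2⟩
        exact ⟨⟨x, h2⟩, (hmem _).mpr h1, rfl⟩
    rw [← h6, sum_map]
    apply sum_congr rfl
    intro x _
    unfold disp
    rw [dif_pos (by exact x.isLt)]
    rfl
  rw [h5, sum_sub_distrib, hsum, D_full] at h4
  linarith

theorem per_D {k : ℕ} (σ : Equiv.Perm (Fin k)) (g : ℕ) (hg : g < k) :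
    Per (D σ) (k + 1) g ↔ Plus σ g := by
  constructor
  · intro H j hj
    have h1 := H (j + 1) (by omega)
    have h2 := H j (by omega)
    rw [show j + 1 + g = (j + g) + 1 by ring, D_succ, D_succ, h2] at h1
    have h3 : disp σ (j + g) = disp σ j := by linarith
    unfold disp at h3
    rw [dif_pos hj, dif_pos (by omega : j < k)] at h3
    push_cast at h3
    linarith
  · intro H
    have h0 := D_plus_zero σ g hg H
    intro j
    induction j with
    | zero => intro _; rw [zero_add, h0, D_zero]
    | succ j ih =>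
      intro hj
      rw [show j + 1 + g = (j + g) + 1 by ring, D_succ, D_succ, ih (by omega)]
      have h3 := H j (by omega)
      unfold disp
      rw [dif_pos (by omega : j + g < k), dif_pos (by omega : j < k), h3]
      push_cast
      ring

/-- number of steps since the last `false` -/
def cnt (h : ℕ → Bool) : ℕ → ℕ
  | 0 => 0
  | j + 1 => if h (j + 1) then cnt h j + 1 else 0

theorem cnt_le (h : ℕ → Bool) (j : ℕ) : cnt h j ≤ j := by
  induction j with
  | zero => simp [cnt]
  | succ j ih =>
    rw [cnt]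
    split_ifs <;> omega

theorem cnt_false (h : ℕ → Bool) (h0 : h 0 = false) (j : ℕ) : h (j - cnt h j) = false := by
  induction j with
  | zero => simpa [cnt] using h0
  | succ j ih =>
    rw [cnt]
    split_ifs with hc
    · rw [show j + 1 - (cnt h j + 1) = j - cnt h j by omega]
      exact ih
    · simpa using hc

theorem cnt_after (h : ℕ → Bool) (x : ℕ) (hx : h x = false) (j : ℕ) :
    cnt h (x + j) ≤ j := by
  induction j with
  | zero =>
    rw [add_zero]
    cases x with
    | zero => simp [cnt]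
    | succ x => simp [cnt, hx]
  | succ j ih =>
    rw [← add_assoc, cnt]
    split_ifs <;> omega

theorem cnt_zero_iff (h : ℕ → Bool) (h0 : h 0 = false) (j : ℕ) : cnt h j = 0 ↔ h j = false := by
  cases j with
  | zero => simp [cnt, h0]
  | succ j =>
    rw [cnt]
    split_ifs with hc <;> simp [hc]

theorem exists_perm (k : ℕ) (h : ℕ → Bool) (h0 : h 0 = false) (hk : h k = false) :
    ∃ σ : Equiv.Perm (Fin k), ∀ x : Fin k,
      (σ x : ℕ) = if h (x + 1) then (x : ℕ) + 1 else x - cnt h x := by
  have hlt : ∀ x : Fin k, (if h (x + 1) then (x : ℕ) + 1 else x - cnt h x) < k := by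
    intro x
    have := x.isLt
    split_ifs with hc
    · by_contra hcon
      have : (x : ℕ) + 1 = k := by omega
      rw [this, hk] at hc
      exact absurd hc (by decide)
    · omega
  have hinj : Function.Injective (fun x : Fin k => (⟨_, hlt x⟩ : Fin k)) := by
    have key : ∀ x y : Fin k, (x : ℕ) < y →
        (if h (x + 1) then (x : ℕ) + 1 else x - cnt h x) ≠
        (if h (y + 1) then (y : ℕ) + 1 else y - cnt h y) := by
      intro x y hxy he
      by_cases hx : h (x + 1) = true
      · by_cases hy : h (y + 1) = true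
        · rw [if_pos hx, if_pos hy] at he
          omega
        · rw [if_pos hx, if_neg hy] at he
          have := cnt_false h h0 y
          rw [← he, hx] at this
          exact absurd this (by decide)
      · have hx' : h (x + 1) = false := by simpa using hx
        by_cases hy : h (y + 1) = true
        · rw [if_neg hx, if_pos hy] at he
          omega
        · rw [if_neg hx, if_neg hy] at he
          have h1 := cnt_after h (x + 1) hx' (y - (x + 1))
          rw [show (x : ℕ) + 1 + (y - (x + 1)) = y by omega] at h1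
          omega
    intro x y hxy
    simp only [Fin.mk.injEq] at hxy
    rcases Nat.lt_trichotomy x y with h1 | h1 | h1
    · exact absurd hxy (key x y h1)
    · exact Fin.ext h1
    · exact absurd hxy.symm (key y x h1)
  exact ⟨Equiv.ofBijective _ (Finite.injective_iff_bijective.mp hinj), fun x => rfl⟩

theorem D_cnt (k : ℕ) (h : ℕ → Bool) (σ : Equiv.Perm (Fin k))
    (hσ : ∀ x : Fin k, (σ x : ℕ) = if h (x + 1) then (x : ℕ) + 1 else x - cnt h x) :
    ∀ j, j ≤ k → D σ j = (cnt h j : ℤ) := by
  intro j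
  induction j with
  | zero => intro _; simp [D_zero, cnt]
  | succ j ih =>
    intro hj
    rw [D_succ, ih (by omega)]
    unfold disp
    rw [dif_pos (by omega : j < k), hσ]
    simp only
    rw [cnt]
    have := cnt_le h j
    split_ifs
    · push_cast
      ring
    · push_cast [this]
      ring

theorem per_cnt (n : ℕ) (h : ℕ → Bool) (h0 : h 0 = false) (g : ℕ) :
    Per (fun j => (cnt h j : ℤ)) n g ↔ Per h n g := by
  constructor
  · intro H j hj
    have h1 := H j hj
    simp only [Nat.cast_inj] at h1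
    by_cases hc : h j = false
    · rw [hc, ← cnt_zero_iff h h0, h1]
      exact (cnt_zero_iff h h0 j).mpr hc
    · have h2 : h (j + g) ≠ false := by
        intro h3
        rw [← cnt_zero_iff h h0, h1, cnt_zero_iff h h0] at h3
        exact hc h3
      simp only [Bool.not_eq_false] at hc h2
      rw [hc, h2]
  · intro H
    have : ∀ j, j + g < n → cnt h (j + g) = cnt h j := by
      intro j
      induction j with
      | zero =>
        intro hj
        have h1 := H 0 hj
        rw [h0] at h1
        rw [(cnt_zero_iff h h0 (0 + g)).mpr h1]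
        simp [cnt]
      | succ j ih =>
        intro hj
        have h1 := H (j + 1) hj
        rw [show j + 1 + g = (j + g) + 1 by ring] at h1 ⊢
        rw [cnt, cnt, h1, ih (by omega)]
    intro j hj
    simp only [Nat.cast_inj]
    exact this j hj

theorem noMinus_of (k : ℕ) (hk : 3 ≤ k) (h : ℕ → Bool) (σ : Equiv.Perm (Fin k))
    (hσ : ∀ x : Fin k, (σ x : ℕ) = if h (x + 1) then (x : ℕ) + 1 else x - cnt h x) :
    NoMinus σ := by
  intro g hg1 hgk H
  have h1 := H 0 (by omega)
  have h2 : ((σ ⟨0, by omega⟩ : Fin k) : ℕ) ≤ 1 := by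
    rw [hσ]
    simp only
    split_ifs <;> simp
  have e : (⟨0 + g, by omega⟩ : Fin k) = ⟨g, by omega⟩ := by
    apply Fin.ext
    simp
  rw [e] at h1
  have hg : g = 1 := by omega
  subst hg
  have h3 := H 1 (by omega)
  omega

/-- from permutations to palindromes -/
theorem word_of_perm {k : ℕ} (hk : 1 ≤ k) (σ : Equiv.Perm (Fin k)) (hσ : NoMinus σ) :
    ∃ h : ℕ → Bool, Pal h (k + 1) ∧
      Ov σ = {g | 1 ≤ g ∧ g < k ∧ Per h (k + 1) g} := by
  obtain ⟨h, _, h1, h2⟩ := exists_palindrome (k + 1) (D σ) (by omega)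
    (by rw [Nat.add_sub_cancel, D_full, D_zero])
  refine ⟨h, h1, ?_⟩
  rw [Ov_noMinus hσ]
  ext g
  constructor
  · rintro ⟨a, b, c⟩
    refine ⟨a, b, ?_⟩
    rw [h2 g a (by omega), per_D σ g b]
    exact c
  · rintro ⟨a, b, c⟩
    refine ⟨a, b, ?_⟩
    rw [h2 g a (by omega), per_D σ g b] at c
    exact c

/-- from palindromes to permutations -/
theorem perm_of_word {k : ℕ} (hk : 3 ≤ k) (h : ℕ → Bool) (hp : Pal h (k + 1)) :
    ∃ σ : Equiv.Perm (Fin k), Ov σ = {g | 1 ≤ g ∧ g < k ∧ Per h (k + 1) g} := by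
  -- we may assume that h starts with false
  have main : ∀ h : ℕ → Bool, h 0 = false → Pal h (k + 1) →
      ∃ σ : Equiv.Perm (Fin k), Ov σ = {g | 1 ≤ g ∧ g < k ∧ Per h (k + 1) g} := by
    intro h h0 hp
    have hk0 : h k = false := by
      have := hp 0 (by omega)
      rw [show k + 1 - 1 - 0 = k by omega, h0] at this
      exact this
    obtain ⟨σ, hσ⟩ := exists_perm k h h0 hk0
    refine ⟨σ, ?_⟩
    rw [Ov_noMinus (noMinus_of k hk h σ hσ)]
    have e : ∀ g, 1 ≤ g → g < k → (Plus σ g ↔ Per h (k + 1) g) := by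
      intro g _ hgk
      rw [← per_D σ g hgk, ← per_cnt (k + 1) h h0 g]
      exact per_congr (fun j hj => D_cnt k h σ hσ j (by omega)) g
    ext g
    constructor
    · rintro ⟨a, b, c⟩
      exact ⟨a, b, (e g a b).mp c⟩
    · rintro ⟨a, b, c⟩
      exact ⟨a, b, (e g a b).mpr c⟩
  by_cases h0 : h 0 = false
  · exact main h h0 hp
  · obtain ⟨σ, hσ⟩ := main (fun j => !(h j)) (by simpa using h0) (by
      intro j hj
      have := hp j hj
      simp only [this])
    refine ⟨σ, ?_⟩
    rw [hσ]
    ext g
    constructor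
    · rintro ⟨a, b, c⟩
      refine ⟨a, b, fun j hj => ?_⟩
      have := c j hj
      simpa using this
    · rintro ⟨a, b, c⟩
      refine ⟨a, b, fun j hj => ?_⟩
      have := c j hj
      simp [this]

end R123.Hertz
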