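import Mathlib

/-!
Hertzsprung patterns: the number of permutations avoiding a pattern depends only on the
set of self-overlaps, and determines it.
-/

namespace R123.Hertz

open Finset

/-- The permutation `σ` of `[k]`, viewed as a Hertzsprung pattern, occurs in the permutation `π`
of `[n]` at (0-based) position `i`: `π(i+j) = σ(j) + d` for all `j`. -/
def OccursAt {k n : ℕ} (σ : Equiv.Perm (Fin k)) (π : Equiv.Perm (Fin n)) (i : ℕ) : Prop :=
  ∃ (h : i + k ≤ n) (d : ℤ), ∀ j : Fin k,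
    ((π ⟨i + j, by have := j.isLt; omega⟩ : ℕ) : ℤ) = ((σ j : ℕ) : ℤ) + d

/-- The number of permutations of `[n]` that avoid the Hertzsprung pattern `σ`. -/
noncomputable def avoidCount {k : ℕ} (σ : Equiv.Perm (Fin k)) (n : ℕ) : ℕ :=
  Nat.card {π : Equiv.Perm (Fin n) // ∀ i, ¬ OccursAt σ π i}

/-- `σ(j+g) = σ(j) + g` -/
def Plus {k : ℕ} (σ : Equiv.Perm (Fin k)) (g : ℕ) : Prop :=
  ∀ j (h : j + g < k), ((σ ⟨j + g, h⟩ : ℕ) : ℤ) = ((σ ⟨j, by omega⟩ : ℕ) : ℤ) + g

/-- `σ(j+g) = σ(j) - g` -/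
def Minus {k : ℕ} (σ : Equiv.Perm (Fin k)) (g : ℕ) : Prop :=
  ∀ j (h : j + g < k), ((σ ⟨j + g, h⟩ : ℕ) : ℤ) = ((σ ⟨j, by omega⟩ : ℕ) : ℤ) - g

open Classical in
/-- number of permutations with occurrences at all positions of `M` -/
noncomputable def N {k : ℕ} (σ : Equiv.Perm (Fin k)) (n : ℕ) (M : Finset ℕ) : ℕ :=
  #{π : Equiv.Perm (Fin n) | ∀ a ∈ M, OccursAt σ π a}

theorem incl_excl {k : ℕ} (σ : Equiv.Perm (Fin k)) (n : ℕ) :
    (avoidCount σ n : ℤ) = ∑ M ∈ (range (n + 1 - k)).powerset, (-1 : ℤ) ^ #M * (N σ n M : ℤ) := by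
  classical
  have h1 : avoidCount σ n = #{π : Equiv.Perm (Fin n) | ∀ i, ¬ OccursAt σ π i} := by
    unfold avoidCount
    rw [Nat.card_eq_fintype_card, Fintype.card_subtype]
  rw [h1]
  have h2 : ∀ M ∈ (range (n + 1 - k)).powerset, (-1 : ℤ) ^ #M * (N σ n M : ℤ) =
      ∑ π : Equiv.Perm (Fin n), if ∀ a ∈ M, OccursAt σ π a then (-1 : ℤ) ^ #M else 0 := by
    intro M _
    unfold N
    rw [card_filter]
    push_cast
    rw [mul_sum]
    apply sum_congr rfl
    intro π _
    split_ifs <;> simp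
  rw [sum_congr rfl h2, sum_comm, card_filter]
  push_cast
  apply sum_congr rfl
  intro π _
  rw [← sum_filter]
  have h3 : (range (n + 1 - k)).powerset.filter (fun M => ∀ a ∈ M, OccursAt σ π a) =
      ((range (n + 1 - k)).filter (fun a => OccursAt σ π a)).powerset := by
    ext M
    simp only [mem_filter, mem_powerset]
    constructor
    · rintro ⟨hM, hO⟩ a ha
      exact mem_filter.mpr ⟨hM ha, hO a ha⟩
    · intro hM
      exact ⟨fun a ha => (mem_filter.mp (hM ha)).1, fun a ha => (mem_filter.mp (hM ha)).2⟩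
  rw [h3, sum_powerset_neg_one_pow_card]
  congr 1
  rw [eq_iff_iff, filter_eq_empty_iff]
  constructor
  · intro h a _
    exact h a
  · intro h i hi
    apply h _ hi
    rw [mem_range]
    obtain ⟨h1, _⟩ := hi
    omega

/-- all overlapping pairs of `M` differ by an element of `O⁺(σ)` -/
def Good {k : ℕ} (σ : Equiv.Perm (Fin k)) (M : Finset ℕ) : Prop :=
  ∀ a ∈ M, ∀ b ∈ M, a < b → b < a + k → Plus σ (b - a)

open Classical in
/-- the cluster map -/
noncomputable def af {k : ℕ} (σ : Equiv.Perm (Fin k)) (M : Finset ℕ) (x : ℕ) : ℕ :=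
  if h : ∃ a, a ∈ M ∧ a ≤ x ∧ x < a + k then
    h.choose + (σ ⟨x - h.choose, by have := h.choose_spec; omega⟩ : ℕ) else x

theorem af_eq {k : ℕ} (σ : Equiv.Perm (Fin k)) (M : Finset ℕ) (hM : Good σ M) (a : ℕ)
    (ha : a ∈ M) (j : Fin k) : af σ M (a + j) = a + (σ j : ℕ) := by
  have h : ∃ b, b ∈ M ∧ b ≤ a + (j : ℕ) ∧ a + (j : ℕ) < b + k :=
    ⟨a, ha, by omega, by have := j.isLt; omega⟩
  unfold af
  rw [dif_pos h]
  obtain ⟨b, hb⟩ : ∃ b, b = h.choose := ⟨_, rfl⟩
  have hs := h.choose_spec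
  have key : ∀ b (hb : b ∈ M ∧ b ≤ a + (j : ℕ) ∧ a + (j : ℕ) < b + k),
      b + (σ ⟨a + (j : ℕ) - b, by omega⟩ : ℕ) = a + (σ j : ℕ) := by
    intro b ⟨hb1, hb2, hb3⟩
    have hj := j.isLt
    rcases Nat.lt_trichotomy a b with hab | hab | hab
    · have h1 := hM a ha b hb1 hab (by omega) (a + j - b) (by omega)
      have h2 : (⟨a + (j : ℕ) - b + (b - a), by omega⟩ : Fin k) = j := by
        apply Fin.ext
        simp only
        omega
      rw [h2] at h1
      rw [Nat.cast_sub hab.le] at h1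
      omega
    · subst hab
      have h2 : (⟨a + (j : ℕ) - a, by omega⟩ : Fin k) = j := by
        apply Fin.ext
        simp only
        omega
      rw [h2]
    · have h1 := hM b hb1 a ha hab (by omega) j (by omega)
      have h2 : (⟨(j : ℕ) + (a - b), by omega⟩ : Fin k) = ⟨a + (j : ℕ) - b, by omega⟩ := by
        apply Fin.ext
        simp only
        omega
      rw [h2] at h1
      rw [Nat.cast_sub hab.le] at h1
      have h3 : (⟨(j : ℕ), by omega⟩ : Fin k) = j := rfl
      rw [h3] at h1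
      omega
  exact key _ hs

theorem exists_A {k n : ℕ} (σ : Equiv.Perm (Fin k)) (M : Finset ℕ) (hM : Good σ M)
    (hn : ∀ a ∈ M, a + k ≤ n) : ∃ A : Equiv.Perm (Fin n), ∀ a (ha : a ∈ M) (j : Fin k),
      A ⟨a + j, by have := j.isLt; have := hn a ha; omega⟩ =
        ⟨a + (σ j : ℕ), by have := (σ j).isLt; have := hn a ha; omega⟩ := by
  have hlt : ∀ x : Fin n, af σ M x < n := by
    intro x
    by_cases h : ∃ a, a ∈ M ∧ a ≤ (x : ℕ) ∧ (x : ℕ) < a + k
    · obtain ⟨a, ha, h1, h2⟩ := h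
      have := af_eq σ M hM a ha ⟨x - a, by omega⟩
      have h3 : a + ((⟨x - a, by omega⟩ : Fin k) : ℕ) = x := by
        simp only
        omega
      rw [h3] at this
      rw [this]
      have h4 := (σ ⟨x - a, by omega⟩).isLt
      have h5 := hn a ha
      omega
    · unfold af
      rw [dif_neg h]
      exact x.isLt
  have hsurj : Function.Surjective (fun x : Fin n => (⟨af σ M x, hlt x⟩ : Fin n)) := by
    intro z
    by_cases h : ∃ a, a ∈ M ∧ a ≤ (z : ℕ) ∧ (z : ℕ) < a + k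
    · obtain ⟨a, ha, h1, h2⟩ := h
      have h5 := hn a ha
      obtain ⟨j, hj⟩ : ∃ j, j = σ.symm ⟨z - a, by omega⟩ := ⟨_, rfl⟩
      refine ⟨⟨a + j, by have := j.isLt; omega⟩, ?_⟩
      apply Fin.ext
      simp only
      rw [af_eq σ M hM a ha j, hj]
      simp
      omega
    · refine ⟨z, ?_⟩
      apply Fin.ext
      simp only
      unfold af
      rw [dif_neg h]
  refine ⟨Equiv.ofBijective _ (Finite.surjective_iff_bijective.mp hsurj), ?_⟩
  intro a ha j
  apply Fin.ext
  exact af_eq σ M hM a ha j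

theorem N_good {k : ℕ} (σ : Equiv.Perm (Fin k)) (n : ℕ) (M : Finset ℕ) (hM : Good σ M)
    (hn : ∀ a ∈ M, a + k ≤ n) : N σ n M = N (1 : Equiv.Perm (Fin k)) n M := by
  classical
  obtain ⟨A, hA⟩ := exists_A σ M hM hn
  have key : ∀ π : Equiv.Perm (Fin n), ∀ a ∈ M,
      (OccursAt (1 : Equiv.Perm (Fin k)) π a ↔ OccursAt σ (π * A) a) := by
    intro π a ha
    constructor
    · rintro ⟨h, d, H⟩
      refine ⟨h, d, fun j => ?_⟩
      rw [Equiv.Perm.mul_apply, hA a ha j]
      have := H (σ j)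
      simpa using this
    · rintro ⟨h, d, H⟩
      refine ⟨h, d, fun j => ?_⟩
      have := H (σ.symm j)
      rw [Equiv.Perm.mul_apply, hA a ha (σ.symm j)] at this
      simp only [Equiv.apply_symm_apply] at this
      simpa using this
  unfold N
  symm
  apply card_bij' (fun π _ => π * A) (fun π _ => π * A⁻¹)
  · intro π hπ
    rw [mem_filter] at hπ ⊢
    exact ⟨mem_univ _, fun a ha => (key π a ha).mp (hπ.2 a ha)⟩
  · intro π hπ
    rw [mem_filter] at hπ ⊢
    refine ⟨mem_univ _, fun a ha => (key _ a ha).mpr ?_⟩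
    rw [inv_mul_cancel_right]
    exact hπ.2 a ha
  · intro π _
    simp
  · intro π _
    simp

/-- the window of positions `[a, a+k)` -/
def win (n k a : ℕ) : Finset (Fin n) := univ.filter (fun x : Fin n => a ≤ (x : ℕ) ∧ (x : ℕ) < a + k)

theorem image_val {k n : ℕ} (σ : Equiv.Perm (Fin k)) (π : Equiv.Perm (Fin n)) (a : ℕ)
    (h : a + k ≤ n) (d : ℤ) (H : ∀ j : Fin k,
      ((π ⟨a + j, by have := j.isLt; omega⟩ : ℕ) : ℤ) = ((σ j : ℕ) : ℤ) + d) :
    (win n k a).image
      (fun x => ((π x : ℕ) : ℤ)) = Finset.Ico d (d + k) := by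
  ext y
  simp only [win, mem_image, mem_filter, mem_univ, true_and, Finset.mem_Ico]
  constructor
  · rintro ⟨x, ⟨h1, h2⟩, rfl⟩
    have h3 := H ⟨x - a, by omega⟩
    have h4 : (⟨a + ((⟨x - a, by omega⟩ : Fin k) : ℕ), by simp only; omega⟩ : Fin n) = x := by
      apply Fin.ext
      simp only
      omega
    rw [h4] at h3
    have h5 := (σ ⟨x - a, by omega⟩).isLt
    omega
  · rintro ⟨h1, h2⟩
    have h6 : (y - d).toNat < k := by omega
    obtain ⟨j, hj⟩ : ∃ j, j = σ.symm ⟨(y - d).toNat, h6⟩ := ⟨_, rfl⟩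
    have h3 := H j
    refine ⟨⟨a + j, by have := j.isLt; omega⟩, ⟨by simp, by have := j.isLt; simp only; omega⟩, ?_⟩
    rw [h3, hj]
    simp
    omega

theorem overlap {k n : ℕ} (σ : Equiv.Perm (Fin k)) (π : Equiv.Perm (Fin n)) (a b : ℕ)
    (hab : a < b) (hb : b < a + k) (h1 : OccursAt σ π a) (h2 : OccursAt σ π b) :
    Plus σ (b - a) ∨ Minus σ (b - a) := by
  classical
  obtain ⟨ha, d, H⟩ := h1
  obtain ⟨hb', d', H'⟩ := h2
  have i1 := image_val σ π a ha d H
  have i2 := image_val σ π b hb' d' H'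
  have hinj : Function.Injective (fun x : Fin n => ((π x : ℕ) : ℤ)) := by
    intro x y hxy
    simp only at hxy
    exact π.injective (Fin.ext (by exact_mod_cast hxy))
  have i3 : (win n k a ∩ win n k b).image
      (fun x => ((π x : ℕ) : ℤ)) = Finset.Ico d (d + k) ∩ Finset.Ico d' (d' + k) := by
    rw [← i1, ← i2, image_inter _ _ hinj]
  have i4 := congrArg Finset.card i3
  rw [card_image_of_injective _ hinj, Finset.Ico_inter_Ico, Int.card_Ico] at i4
  have i5 : #(win n k a ∩ win n k b) = a + k - b := by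
    rw [← card_map Fin.valEmbedding]
    have : (win n k a ∩ win n k b).map
        Fin.valEmbedding = Finset.Ico b (a + k) := by
      ext x
      simp only [win, mem_map, mem_inter, mem_filter, mem_univ, true_and, Finset.mem_Ico,
        Fin.valEmbedding_apply]
      constructor
      · rintro ⟨y, ⟨⟨h1, h2⟩, h3, h4⟩, rfl⟩
        exact ⟨h3, h2⟩
      · rintro ⟨h1, h2⟩
        exact ⟨⟨x, by omega⟩, ⟨⟨by simp only; omega, by simp only; omega⟩,
          by simp only; omega, by simp only; omega⟩, rfl⟩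
    rw [this, Nat.card_Ico]
  rw [i5, max_def, min_def] at i4
  have i6 : d' - d = ((b - a : ℕ) : ℤ) ∨ d' - d = -((b - a : ℕ) : ℤ) := by
    split_ifs at i4 <;> omega
  have i7 : ∀ j (h : j + (b - a) < k), ((σ ⟨j + (b - a), h⟩ : ℕ) : ℤ) =
      ((σ ⟨j, by omega⟩ : ℕ) : ℤ) + (d' - d) := by
    intro j h
    have e1 := H ⟨j + (b - a), h⟩
    have e2 := H' ⟨j, by omega⟩
    have e3 : (⟨a + ((⟨j + (b - a), h⟩ : Fin k) : ℕ), by simp only; omega⟩ : Fin n) =
        ⟨b + ((⟨j, by omega⟩ : Fin k) : ℕ), by simp only; omega⟩ := by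
      apply Fin.ext
      simp only
      omega
    rw [e3] at e1
    linarith
  rcases i6 with h | h
  · left
    intro j hj
    rw [i7 j hj, h]
  · right
    intro j hj
    rw [i7 j hj, h]
    ring

theorem N_bad {k : ℕ} (σ : Equiv.Perm (Fin k)) (n : ℕ) (M : Finset ℕ)
    (hmin : ∀ g, 1 ≤ g → g < k → ¬ Minus σ g) (hM : ¬ Good σ M) : N σ n M = 0 := by
  classical
  unfold N
  rw [card_eq_zero, filter_eq_empty_iff]
  intro π _ H
  apply hM
  intro a ha b hb hab hbk
  rcases overlap σ π a b hab hbk (H a ha) (H b hb) with h | h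
  · exact h
  · exact absurd h (hmin (b - a) (by omega) (by omega))

end R123.Hertz
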