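import Mathlib

/-!
Every word whose first and last letters agree has the same periods as some binary palindrome
(which starts with `false`). Words of length `n` are functions on `ℕ` restricted to `[0,n)`.
-/

namespace R123.Hertz

/-- `f`, restricted to `[0,n)`, has period `g`. -/
def Per {α : Type*} (f : ℕ → α) (n g : ℕ) : Prop := ∀ j, j + g < n → f (j + g) = f j

/-- `f`, restricted to `[0,n)`, is a palindrome. -/
def Pal {α : Type*} (f : ℕ → α) (n : ℕ) : Prop := ∀ j, j < n → f (n - 1 - j) = f j

theorem per_congr {α : Type*} {f h : ℕ → α} {n : ℕ} (e : ∀ j, j < n → f j = h j) (g : ℕ) :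
    Per f n g ↔ Per h n g := by
  constructor
  · intro H j hj
    rw [← e _ hj, ← e j (by omega)]
    exact H j hj
  · intro H j hj
    rw [e _ hj, e j (by omega)]
    exact H j hj

/-- reduction of long periods -/
theorem per_red {α : Type*} {f : ℕ → α} {n p g : ℕ} (hp : Per f n p) (hg : p ≤ g) (hn : p ≤ n) :
    Per f n g ↔ Per f (n - p) (g - p) := by
  constructor
  · intro H j hj
    have h1 := hp (j + (g - p)) (by omega)
    have h2 := H j (by omega)
    rw [show j + (g - p) + p = j + g by omega] at h1
    rw [← h1, h2]
  · intro H j hj
    have h1 := hp (j + (g - p)) (by omega)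
    have h2 := H j (by omega)
    rw [show j + (g - p) + p = j + g by omega] at h1
    rw [h1, h2]

theorem per_mod {α : Type*} {f : ℕ → α} {n p : ℕ} (hp : Per f n p) (hp0 : 0 < p) :
    ∀ j, j < n → f j = f (j % p) := by
  intro j
  induction j using Nat.strong_induction_on with
  | _ j ih =>
    intro hj
    by_cases h : j < p
    · rw [Nat.mod_eq_of_lt h]
    · have h1 := hp (j - p) (by omega)
      rw [show j - p + p = j by omega] at h1
      rw [h1, ih (j - p) (by omega) (by omega)]
      congr 1
      exact (Nat.mod_eq_sub_mod (by omega)).symm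

/-- a `p`-periodic function that has period `g` on a window of length at least `p+g` has global
period `gcd g p` -/
theorem glob_gcd {α : Type*} {H : ℕ → α} {p g n : ℕ} (hp0 : 0 < p)
    (hp : ∀ j, H j = H (j % p)) (hg : Per H n g) (hn : p + g ≤ n) :
    ∀ j, H (j + Nat.gcd g p) = H j := by
  have h1 : ∀ j, H (j + g) = H j := by
    intro j
    have h2 := hg (j % p) (by have := Nat.mod_lt j hp0; omega)
    rw [hp (j + g), hp j, ← h2, hp (j % p + g)]
    congr 1
    simp [Nat.add_mod]
  have h3 : ∀ u j, H (j + u * g) = H j := by
    intro u
    induction u with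
    | zero => intro j; simp
    | succ u ih =>
      intro j
      rw [show j + (u + 1) * g = (j + u * g) + g by ring, h1, ih]
  intro j
  obtain ⟨u, hu⟩ : ∃ u, (u * g) % p = (Nat.gcd g p) % p := by
    have hle : Nat.gcd g p ≤ p := Nat.gcd_le_right g hp0
    rcases Nat.lt_or_ge (Nat.gcd g p) p with h | h
    · obtain ⟨m, _, hm⟩ := Nat.exists_mul_mod_eq_gcd h
      exact ⟨m, by rw [mul_comm, hm, Nat.mod_eq_of_lt h]⟩
    · refine ⟨0, ?_⟩
      have : Nat.gcd g p = p := le_antisymm hle h
      rw [this]
      simp
  rw [← h3 u j, hp (j + u * g), hp (j + Nat.gcd g p)]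
  congr 1
  rw [Nat.add_mod, ← hu, ← Nat.add_mod]

theorem glob_dvd {α : Type*} {H : ℕ → α} {d : ℕ} (h : ∀ j, H (j + d) = H j) :
    ∀ u j, H (j + u * d) = H j := by
  intro u
  induction u with
  | zero => intro j; simp
  | succ u ih =>
    intro j
    rw [show j + (u + 1) * d = (j + u * d) + d by ring, h, ih]

/-- **Theorem W.** -/
theorem exists_palindrome {α : Type*} : ∀ (n : ℕ) (f : ℕ → α), 1 ≤ n → f (n - 1) = f 0 →
    ∃ h : ℕ → Bool, h 0 = false ∧ Pal h n ∧ ∀ g, 1 ≤ g → g < n → (Per h n g ↔ Per f n g) := by
  intro n
  induction n using Nat.strong_induction_on with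
  | _ n ih =>
  intro f hn hf
  rcases Nat.eq_or_lt_of_le hn with h1 | h1
  · refine ⟨fun _ => false, rfl, fun j _ => rfl, fun g hg1 hg2 => by omega⟩
  classical
  -- the least period
  have hex : ∃ p, 1 ≤ p ∧ p < n ∧ Per f n p := by
    refine ⟨n - 1, by omega, by omega, fun j hj => ?_⟩
    have : j = 0 := by omega
    subst this
    rw [zero_add]
    exact hf
  obtain ⟨p, ⟨hp1, hpn, hpp⟩, hmin⟩ : ∃ p, (1 ≤ p ∧ p < n ∧ Per f n p) ∧
      ∀ q, q < p → ¬(1 ≤ q ∧ q < n ∧ Per f n q) := by
    exact ⟨Nat.find hex, Nat.find_spec hex, fun q hq => Nat.find_min hex hq⟩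
  obtain ⟨b, hb⟩ : ∃ b, b = n - p := ⟨_, rfl⟩
  have hb1 : 1 ≤ b := by omega
  have hbn : b < n := by omega
  have hfb : f (b - 1) = f 0 := by
    have := hpp (b - 1) (by omega)
    rw [← this, ← hf]
    congr 1
    omega
  obtain ⟨v, hv0, hvpal, hvper⟩ := ih b hbn f hb1 hfb
  -- long periods agree for every h which has period p and agrees with v on [0,b)
  have long : ∀ h : ℕ → Bool, (∀ j, j < b → h j = v j) → Per h n p → ∀ g, p ≤ g → g < n →
      (Per h n g ↔ Per f n g) := by
    intro h he hp g hg hgn
    rw [per_red hp hg hpn.le, per_red hpp hg hpn.le, ← hb]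
    rcases Nat.eq_zero_or_pos (g - p) with h0 | h0
    · rw [h0]
      exact ⟨fun _ j _ => rfl, fun _ j _ => rfl⟩
    · rw [per_congr he]
      exact hvper (g - p) h0 (by omega)
  by_cases hcase : p ≤ b
  · -- Case A
    have hvp : ∀ j, j < b → v (j % p) = v j := by
      intro j hj
      rcases Nat.eq_or_lt_of_le hcase with h2 | h2
      · rw [Nat.mod_eq_of_lt (by omega)]
      · have h3 : Per v b p := by
          rw [hvper p hp1 h2]
          intro j hj
          exact hpp j (by omega)
        exact (per_mod h3 (by omega) j hj).symm
    obtain ⟨h, hh⟩ : ∃ h : ℕ → Bool, h = fun j => v (j % p) := ⟨_, rfl⟩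
    have hhv : ∀ j, j < b → h j = v j := by
      intro j hj
      rw [hh]
      exact hvp j hj
    have hhm : ∀ j, h j = h (j % p) := by
      intro j
      rw [hh]
      simp
    have hhadd : ∀ j, h (j + p) = h j := by
      intro j
      rw [hh]
      simp
    have hhp : Per h n p := fun j _ => hhadd j
    refine ⟨h, ?_, ?_, ?_⟩
    · rw [hhv 0 (by omega)]
      exact hv0
    · intro j hj
      by_cases hjb : j < b
      · have h4 : n - 1 - j = (b - 1 - j) + p := by omega
        rw [h4, hhadd, hhv _ (by omega), hhv j hjb]
        exact hvpal j hjb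
      · have h5 : j = (j - p) + p := by omega
        have h6 : n - 1 - j = b - 1 - (j - p) := by omega
        rw [h6]
        conv_rhs => rw [h5, hhadd]
        rw [hhv _ (by omega), hhv _ (by omega)]
        exact hvpal (j - p) (by omega)
    · intro g hg1 hgn
      by_cases hgp : p ≤ g
      · exact long h hhv hhp g hgp hgn
      · constructor
        · intro H
          exfalso
          have hG := glob_gcd (by omega) hhm H (by omega)
          obtain ⟨G, hGd⟩ : ∃ G, G = Nat.gcd g p := ⟨_, rfl⟩
          rw [← hGd] at hG
          have hG1 : 1 ≤ G := by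
            rw [hGd]
            exact Nat.gcd_pos_of_pos_left _ (by omega)
          have hGg : G ≤ g := by
            rw [hGd]
            exact Nat.gcd_le_left _ (by omega)
          have hGp : G ∣ p := by
            rw [hGd]
            exact Nat.gcd_dvd_right _ _
          have hvG : Per v b G := by
            intro j hj
            rw [← hhv _ hj, ← hhv _ (by omega)]
            exact hG j
          have hfG : Per f b G := (hvper G hG1 (by omega)).mp hvG
          apply hmin G (by omega)
          refine ⟨hG1, by omega, ?_⟩
          intro j hj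
          have e1 : ∀ i, i < n → f i = f (i % G) := by
            intro i hi
            rw [per_mod hpp (by omega) i hi, per_mod hfG (by omega) (i % p)
              (by have := Nat.mod_lt i (show 0 < p by omega); omega)]
            congr 1
            exact Nat.mod_mod_of_dvd i hGp
          rw [e1 _ hj, e1 j (by omega)]
          simp
        · intro H
          exact absurd ⟨hg1, hgn, H⟩ (hmin g (by omega))
  · -- Case B
    have hcase' : b < p := by omega
    have hnb : n = p + b := by omega
    obtain ⟨h, hh⟩ : ∃ h : Bool → ℕ → Bool, h = fun c j =>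
      if j < b then v j else if j < p then c else v (j - p) := ⟨_, rfl⟩
    have h_lo : ∀ c j, j < b → h c j = v j := by
      intro c j hj
      rw [hh]
      simp [hj]
    have h_mid : ∀ c j, b ≤ j → j < p → h c j = c := by
      intro c j hj hj2
      rw [hh]
      have : ¬ j < b := by omega
      simp [this, hj2]
    have h_hi : ∀ c j, p ≤ j → h c j = v (j - p) := by
      intro c j hj
      rw [hh]
      have h1 : ¬ j < b := by omega
      have h2 : ¬ j < p := by omega
      simp [h1, h2]
    have hhp : ∀ c, Per (h c) n p := by
      intro c j hj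
      rw [h_hi c _ (by omega), h_lo c j (by omega)]
      congr 1
      omega
    have hpal : ∀ c, Pal (h c) n := by
      intro c j hj
      by_cases h2 : j < b
      · rw [h_hi c _ (by omega), h_lo c j h2]
        have : n - 1 - j - p = b - 1 - j := by omega
        rw [this]
        exact hvpal j h2
      · by_cases h3 : j < p
        · rw [h_mid c _ (by omega) (by omega), h_mid c j (by omega) h3]
        · rw [h_lo c _ (by omega), h_hi c j (by omega)]
          have : n - 1 - j = b - 1 - (j - p) := by omega
          rw [this]
          exact hvpal (j - p) (by omega)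
    -- it suffices to find c such that h c has no period less than p
    suffices hs : ∃ c, ∀ g, 1 ≤ g → g < p → ¬ Per (h c) n g by
      obtain ⟨c, hc⟩ := hs
      refine ⟨h c, by rw [h_lo c 0 (by omega)]; exact hv0, hpal c, ?_⟩
      intro g hg1 hgn
      by_cases hgp : p ≤ g
      · exact long (h c) (fun j hj => h_lo c j hj) (hhp c) g hgp hgn
      · constructor
        · intro H
          exact absurd H (hc g hg1 (by omega))
        · intro H
          exact absurd ⟨hg1, hgn, H⟩ (hmin g (by omega))
    by_contra hcon
    push Not at hcon
    obtain ⟨g0, hg01, hg0p, H0⟩ := hcon false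
    obtain ⟨g1, hg11, hg1p, H1⟩ := hcon true
    -- g1 < b
    have hg1b : g1 < b := by
      by_contra h2
      push Not at h2
      have h3 := H1 0 (by omega)
      rw [zero_add, h_mid true g1 h2 hg1p, h_lo true 0 (by omega), hv0] at h3
      exact absurd h3 (by decide)
    have hvtrue : v (b - g1) = true := by
      have h3 := H1 (b - g1) (by omega)
      rw [show b - g1 + g1 = b by omega, h_mid true b le_rfl hcase', h_lo true _ (by omega)] at h3
      exact h3.symm
    have hg0b : g0 < b := by
      by_contra h2
      push Not at h2
      -- v would be all false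
      have hall : ∀ j, j < b → v j = false := by
        intro j
        induction j using Nat.strong_induction_on with
        | _ j ihj =>
          intro hj
          have h3 := H0 j (by omega)
          rw [h_lo false j hj] at h3
          rw [← h3]
          by_cases h4 : j + g0 < p
          · exact h_mid false _ (by omega) h4
          · rw [h_hi false _ (by omega)]
            exact ihj _ (by omega) (by omega)
      rw [hall _ (by omega)] at hvtrue
      exact absurd hvtrue (by decide)
    -- global periodic extensions
    obtain ⟨K, hK⟩ : ∃ K : Bool → ℕ → Bool, K = fun c j => h c (j % p) := ⟨_, rfl⟩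
    have hKm : ∀ c j, K c j = K c (j % p) := by
      intro c j
      rw [hK]
      simp
    have hKh : ∀ c j, j < n → K c j = h c j := by
      intro c j hj
      rw [hK]
      exact (per_mod (hhp c) (by omega) j hj).symm
    have key : ∀ c g, g < b → 1 ≤ g → Per (h c) n g → ∃ G, 1 ≤ G ∧ G < b ∧ G ∣ p ∧
        ∀ j, K c (j + G) = K c j := by
      intro c g hgb hg1 H
      have HK : Per (K c) n g := by
        rw [per_congr (fun j hj => hKh c j hj)]
        exact H
      have hG := glob_gcd (by omega) (hKm c) HK (by omega)
      refine ⟨Nat.gcd g p, Nat.gcd_pos_of_pos_left _ (by omega), ?_, Nat.gcd_dvd_right _ _, hG⟩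
      have := Nat.gcd_le_left p (show 0 < g by omega)
      omega
    obtain ⟨G0, hG01, hG0b, hG0d, hG0⟩ := key false g0 hg0b hg01 H0
    obtain ⟨G1, hG11, hG1b, hG1d, hG1⟩ := key true g1 hg1b hg11 H1
    have hlast : ∀ c, K c (p - 1) = c := by
      intro c
      rw [hKh c _ (by omega)]
      exact h_mid c _ (by omega) (by omega)
    have hfirst : ∀ c G, G ∣ p → 1 ≤ G → (∀ j, K c (j + G) = K c j) → K c (G - 1) = c := by
      intro c G hd hG hper
      obtain ⟨u, hu⟩ := hd
      have hu1 : 1 ≤ u := by
        rcases Nat.eq_zero_or_pos u with h0 | h0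
        · rw [h0] at hu
          omega
        · exact h0
      have h2 := glob_dvd hper (u - 1) (G - 1)
      have h5 : G - 1 + (u - 1) * G = p - 1 := by
        obtain ⟨w, rfl⟩ : ∃ w, u = w + 1 := ⟨u - 1, by omega⟩
        rw [hu, Nat.add_sub_cancel]
        have : G * (w + 1) = w * G + G := by ring
        omega
      rw [h5] at h2
      exact h2.symm.trans (hlast c)
    have hne : G0 ≠ G1 := by
      intro he
      have h2 := hfirst false G0 hG0d hG01 hG0
      have h3 := hfirst true G1 hG1d hG11 hG1
      rw [hKh _ _ (by omega), h_lo _ _ (by omega)] at h2 h3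
      rw [he, h3] at h2
      exact absurd h2 (by decide)
    -- p - b ≤ G0, G1
    have hm1 : p - b ≤ G1 := by
      by_contra h2
      push Not at h2
      -- then K true is constantly true, contradiction at 0
      have h3 : ∀ j, j < b → K true (b - 1 - j) = true := by
        intro j
        induction j using Nat.strong_induction_on with
        | _ j ihj =>
          intro hj
          rw [← hG1]
          by_cases h4 : b ≤ b - 1 - j + G1
          · rw [hKh _ _ (by omega)]
            exact h_mid _ _ h4 (by omega)
          · have h5 : b - 1 - j + G1 = b - 1 - (j - G1) := by omega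
            rw [h5]
            exact ihj _ (by omega) (by omega)
      have h6 := h3 (b - 1) (by omega)
      rw [show b - 1 - (b - 1) = 0 by omega, hKh _ _ (by omega), h_lo _ _ (by omega), hv0] at h6
      exact absurd h6 (by decide)
    have hm0 : p - b ≤ G0 := by
      by_contra h2
      push Not at h2
      have h3 : ∀ j, j < b → K false (b - 1 - j) = false := by
        intro j
        induction j using Nat.strong_induction_on with
        | _ j ihj =>
          intro hj
          rw [← hG0]
          by_cases h4 : b ≤ b - 1 - j + G0
          · rw [hKh _ _ (by omega)]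
            exact h_mid _ _ h4 (by omega)
          · have h5 : b - 1 - j + G0 = b - 1 - (j - G0) := by omega
            rw [h5]
            exact ihj _ (by omega) (by omega)
      have h6 := h3 (g1 - 1) (by omega)
      rw [show b - 1 - (g1 - 1) = b - g1 by omega, hKh _ _ (by omega), h_lo _ _ (by omega),
        hvtrue] at h6
      exact absurd h6 (by decide)
    -- sum of the two is less than p
    have hsum : G0 + G1 < p := by
      have half : ∀ G, G ∣ p → G < p → 2 * G ≤ p := by
        intro G hd hlt
        obtain ⟨u, hu⟩ := hd
        have : 2 ≤ u := by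
          by_contra h2
          have : u = 0 ∨ u = 1 := by omega
          rcases this with h3 | h3
          · rw [h3] at hu; omega
          · rw [h3] at hu; omega
        rw [hu]
        nlinarith
      have h2 := half G0 hG0d (by omega)
      have h3 := half G1 hG1d (by omega)
      omega
    -- the contradiction
    have s1 : K true (p - 1 - G1) = true := by
      have := hG1 (p - 1 - G1)
      rw [show p - 1 - G1 + G1 = p - 1 by omega, hlast] at this
      exact this.symm
    have s2 : K false (p - 1 - G1) = true := by
      rw [hKh _ _ (by omega), h_lo _ _ (by omega)]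
      rw [hKh _ _ (by omega), h_lo _ _ (by omega)] at s1
      exact s1
    have s3 : K false (p - 1 - G1 - G0) = true := by
      have := hG0 (p - 1 - G1 - G0)
      rw [show p - 1 - G1 - G0 + G0 = p - 1 - G1 by omega, s2] at this
      exact this.symm
    have s4 : K true (p - 1 - G1 - G0) = true := by
      rw [hKh _ _ (by omega), h_lo _ _ (by omega)]
      rw [hKh _ _ (by omega), h_lo _ _ (by omega)] at s3
      exact s3
    have s5 : K true (p - 1 - G0) = true := by
      have := hG1 (p - 1 - G1 - G0)
      rw [show p - 1 - G1 - G0 + G1 = p - 1 - G0 by omega, s4] at this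
      exact this
    have s6 : K false (p - 1 - G0) = true := by
      rw [hKh _ _ (by omega), h_lo _ _ (by omega)]
      rw [hKh _ _ (by omega), h_lo _ _ (by omega)] at s5
      exact s5
    have s7 : K false (p - 1) = true := by
      have := hG0 (p - 1 - G0)
      rw [show p - 1 - G0 + G0 = p - 1 by omega, s6] at this
      exact this
    rw [hlast] at s7
    exact absurd s7 (by decide)

end R123.Hertz
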